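import Pool.Agent.Helper43.AX.St

/-!
PROJECT AX (MP_b3ce06_al), module KL.
-/

set_option autoImplicit false

namespace Pool.Agent.Helper99.AX

open Pool.Agent.Helper43.AX

private theorem key {L : Type} [CommRing L] (x : Lˣ) (n : ℕ) (k : ℤ) (r : ℕ)
    (h : (n : ℤ) + k = (r : ℤ)) : (x : L) ^ n * ((x ^ k : Lˣ) : L) = (x : L) ^ r := by
  rw [← Units.val_pow_eq_pow_val, ← Units.val_mul, ← Units.val_pow_eq_pow_val]
  congr 1
  rw [← zpow_natCast x n, ← zpow_add, h, zpow_natCast]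

theorem hKL (hXP : StXP) : StKL := by
  intro p s q hp hq L _ x σ I hxm hσ hI h1 h2
  obtain ⟨m, hm⟩ : ∃ m, m = q ^ 2 := ⟨_, rfl⟩
  obtain ⟨N, hN⟩ : ∃ N, N = q ^ p := ⟨_, rfl⟩
  rw [← hN, ← hm] at h1 h2
  rw [← hm] at hxm
  rw [← hN]
  obtain ⟨y, hy⟩ : ∃ y : L, y = (x : L) := ⟨_, rfl⟩
  obtain ⟨P, hP⟩ : ∃ P : L, P = (p : L) := ⟨_, rfl⟩
  have e1 : y ^ (N * m) * ((x ^ (-(N : ℤ) * (m : ℤ)) : Lˣ) : L) = 1 := by
    rw [hy, key x (N * m) _ 0 (by push_cast; ring), pow_zero]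
  have e2 : y ^ (N * m) * ((x ^ (1 - (N : ℤ) * ((m : ℤ) - 1)) : Lˣ) : L) = y ^ (N + 1) := by
    rw [hy, key x (N * m) _ (N + 1) (by push_cast; ring)]
  have e3 : y ^ (N * m) * ((x ^ (-(N : ℤ) * ((m : ℤ) - 1)) : Lˣ) : L) = y ^ N := by
    rw [hy, key x (N * m) _ N (by push_cast; ring)]
  rw [← hy, ← hP]
  rw [← hy] at h1 h2 hxm hσ
  rw [← hP] at h2
  -- the two relations multiplied by the unit
  have i1 : (1 - y) * y ^ (N * m) - 1 + y * y ^ N ∈ I := by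
    have h3 := I.mul_mem_left (y ^ (N * m)) h1
    have h4 : y ^ (N * m) * (1 - ((x ^ (-(N : ℤ) * (m : ℤ)) : Lˣ) : L) - y +
        ((x ^ (1 - (N : ℤ) * ((m : ℤ) - 1)) : Lˣ) : L)) =
        (1 - y) * y ^ (N * m) - 1 + y * y ^ N := by
      rw [mul_add, mul_sub, mul_sub, e1, e2]
      ring
    rwa [h4] at h3
  have i2 : -y ^ (N * m) + 1 + (y + P) * y ^ (N * m) - (y + P) * y ^ N ∈ I := by
    have h3 := I.mul_mem_left (y ^ (N * m)) h2
    have h4 : y ^ (N * m) * (-1 + ((x ^ (-(N : ℤ) * (m : ℤ)) : Lˣ) : L) + (y + P) -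
        (y + P) * ((x ^ (-(N : ℤ) * ((m : ℤ) - 1)) : Lˣ) : L)) =
        -y ^ (N * m) + 1 + (y + P) * y ^ (N * m) - (y + P) * y ^ N := by
      rw [mul_sub, mul_add, mul_add, e1, mul_left_comm, e3]
      ring
    rwa [h4] at h3
  have i3 : P * (y ^ N - 1) ∈ I := by
    have h3 := I.sub_mem (I.mul_mem_left P i1) (I.mul_mem_left (1 - y) (I.add_mem i1 i2))
    have h4 : P * ((1 - y) * y ^ (N * m) - 1 + y * y ^ N) -
        (1 - y) * ((1 - y) * y ^ (N * m) - 1 + y * y ^ N +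
          (-y ^ (N * m) + 1 + (y + P) * y ^ (N * m) - (y + P) * y ^ N)) =
        P * (y ^ N - 1) := by ring
    rwa [h4] at h3
  have hNN : N * N = m ^ p := by
    rw [hN, hm]
    ring
  have i4 : P * (y + P - 1) ∈ I := by
    obtain ⟨c, hc⟩ : y ^ N - 1 ∣ (y ^ N) ^ N - 1 := by
      have := sub_dvd_pow_sub_pow (y ^ N) 1 N
      rwa [one_pow] at this
    have h3 := I.mul_mem_right c i3
    rw [mul_assoc, ← hc, ← pow_mul, hNN, (hXP m L y σ hxm hσ p).1, ← hP] at h3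
    exact h3
  have i5 : P * (y + P) ∈ I := by
    have h3 := hI _ i4
    have h4 : σ (P * (y + P - 1)) = P * (y + P) := by
      have h5 : σ P = P := by
        rw [hP]
        exact map_natCast σ p
      rw [map_mul, map_sub, map_add, map_one, h5, hσ]
      ring
    rwa [h4] at h3
  have i6 : P ∈ I := by
    have h3 := I.sub_mem i5 i4
    have h4 : P * (y + P) - P * (y + P - 1) = P := by ring
    rwa [h4] at h3
  refine ⟨i6, ?_⟩
  obtain ⟨r, hr⟩ : ∃ r : L, (y + 1) ^ N = y ^ N + 1 + P * r := by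
    have h3 : N = p ^ (s * p) := by
      rw [hN, hq, pow_mul]
    have h4 := add_pow_prime_pow_eq hp y 1 (s * p)
    rw [h3, h4, one_pow, hP, mul_assoc, mul_assoc]
    exact ⟨_, rfl⟩
  have h5 : y ^ (N * m) = y ^ N + 1 + P * r := by
    rw [mul_comm, pow_mul, hxm, hr]
  rw [h5] at i1
  have h6 := I.sub_mem i1 (I.mul_mem_right ((1 - y) * r) i6)
  have h7 : (1 - y) * (y ^ N + 1 + P * r) - 1 + y * y ^ N - P * ((1 - y) * r) = y ^ N - y := by
    ring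
  rwa [h7] at h6

end Pool.Agent.Helper99.AX
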